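import Mathlib

set_option autoImplicit false

namespace Pool.Agent.Lib.MP_cfe824_nt

open WeierstrassCurve WeierstrassCurve.Affine

/-- The curve y^2 = x^3 + b over the rationals. -/
abbrev W (b : ℚ) : WeierstrassCurve.Affine ℚ := (⟨0, 0, 0, 0, b⟩ : WeierstrassCurve ℚ).toAffine

/-- The x-coordinate of the double of a point with x-coordinate x. -/
def dbl (b x : ℚ) : ℚ := (x ^ 4 - 8 * b * x) / (4 * (x ^ 3 + b))

/-- An infinite doubling orbit of x-coordinates starting at a rational point. -/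
def Good (b : ℚ) : Prop :=
  ∃ (x : ℕ → ℚ) (y : ℚ), y ^ 2 = x 0 ^ 3 + b ∧ (∀ n, x n ^ 3 + b ≠ 0) ∧
    (∀ n, x (n + 1) = dbl b (x n)) ∧ (Set.range x).Infinite

lemma eqn_iff (b x y : ℚ) : (W b).Equation x y ↔ y ^ 2 = x ^ 3 + b := by
  rw [equation_iff]; simp

lemma negY_eq (b x y : ℚ) : (W b).negY x y = -y := by
  simp [negY]

lemma nonsing {b x y : ℚ} (h : y ^ 2 = x ^ 3 + b) (hy : y ≠ 0) : (W b).Nonsingular x y := by
  rw [nonsingular_iff, eqn_iff]
  refine ⟨h, Or.inr ?_⟩
  simp only [zero_mul, sub_zero]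
  intro h'
  apply hy
  linarith

lemma double {b x y : ℚ} (h : (W b).Nonsingular x y) (hy : y ≠ 0) :
    ∃ (y' : ℚ) (h' : (W b).Nonsingular (dbl b x) y'),
      (Point.some x y h : (W b).Point) + Point.some x y h = Point.some (dbl b x) y' h' := by
  have hne : y ≠ (W b).negY x y := by
    rw [negY_eq]; intro h'; apply hy; linarith
  have he : y ^ 2 = x ^ 3 + b := (eqn_iff b x y).mp h.1
  have hx : (W b).addX x x ((W b).slope x x y y) = dbl b x := by
    rw [slope_of_Y_ne rfl hne, negY_eq]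
    simp only [addX, dbl]
    rw [← he]
    have hb : b = y ^ 2 - x ^ 3 := by linarith
    field_simp
    rw [hb]
    ring
  have hns := nonsingular_add h h (fun hxy => hne hxy.right)
  refine ⟨(W b).addY x x y ((W b).slope x x y y), hx ▸ hns, ?_⟩
  rw [Point.add_self_of_Y_ne hne]
  congr 1

/-- The x-coordinate of a point (zero at infinity). -/
def xc {b : ℚ} : (W b).Point → ℚ
  | Point.zero => 0
  | Point.some x _ _ => x

lemma good_to_point {b : ℚ} (h : Good b) : ∃ P : (W b).Point, ¬ IsOfFinAddOrder P := by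
  obtain ⟨x, y, h0, hne, hstep, hinf⟩ := h
  have hy : y ≠ 0 := by
    intro hy; apply hne 0; rw [← h0, hy]; ring
  refine ⟨Point.some (x 0) y (nonsing h0 hy), ?_⟩
  set P : (W b).Point := Point.some (x 0) y (nonsing h0 hy) with hP
  have key : ∀ n : ℕ, ∃ (y' : ℚ) (h' : (W b).Nonsingular (x n) y'),
      (2 ^ n) • P = Point.some (x n) y' h' := by
    intro n
    induction n with
    | zero => exact ⟨y, nonsing h0 hy, by simp [hP]⟩
    | succ n ih =>
      obtain ⟨y', h', e⟩ := ih
      have hy' : y' ≠ 0 := by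
        intro hy'
        apply hne n
        have := (eqn_iff _ _ _).mp h'.1
        rw [← this, hy']; ring
      obtain ⟨y'', h'', e'⟩ := double h' hy'
      refine ⟨y'', (hstep n) ▸ h'', ?_⟩
      rw [pow_succ, mul_two, add_nsmul, e, e']
      congr 1
      exact (hstep n).symm
  intro hfin
  apply hinf
  have hf : (AddSubmonoid.multiples P : Set (W b).Point).Finite := hfin.finite_multiples
  refine (hf.image xc).subset ?_
  rintro _ ⟨n, rfl⟩
  obtain ⟨y', h', e⟩ := key n
  exact ⟨(2 ^ n) • P, ⟨2 ^ n, rfl⟩, by rw [e]; rfl⟩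

lemma point_to_good {b : ℚ} (P : (W b).Point) (hP : ¬ IsOfFinAddOrder P) : Good b := by
  have hnz : ∀ k : ℕ, 0 < k → k • P ≠ 0 := by
    intro k hk e
    exact hP (isOfFinAddOrder_iff_nsmul_eq_zero.mpr ⟨k, hk, e⟩)
  have hinj : Function.Injective (fun k : ℕ => k • P) :=
    injective_nsmul_iff_not_isOfFinAddOrder.mpr hP
  have hsome : ∀ n : ℕ, ∃ (y' : ℚ) (h' : (W b).Nonsingular (xc ((2 ^ n) • P)) y'),
      (2 ^ n) • P = Point.some _ y' h' ∧ y' ≠ 0 := by
    intro n
    have h1 := hnz (2 ^ n) (by positivity)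
    have h2 := hnz (2 ^ (n + 1)) (by positivity)
    rw [pow_succ, mul_two, add_nsmul] at h2
    generalize (2 ^ n) • P = R at h1 h2 ⊢
    rcases R with _ | ⟨x, y, h⟩
    · exact absurd rfl h1
    · refine ⟨y, h, rfl, ?_⟩
      intro hy
      apply h2
      apply Point.add_self_of_Y_eq
      rw [negY_eq, hy]; simp
  obtain ⟨y0, h0, -, -⟩ := hsome 0
  refine ⟨fun n => xc ((2 ^ n) • P), y0, (eqn_iff _ _ _).mp h0.1, ?_, ?_, ?_⟩
  · intro n
    obtain ⟨y', h', -, hy'⟩ := hsome n
    have := (eqn_iff _ _ _).mp h'.1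
    simp only
    rw [← this]
    exact pow_ne_zero 2 hy'
  · intro n
    obtain ⟨y', h', e, hy'⟩ := hsome n
    obtain ⟨y'', h'', e'⟩ := double h' hy'
    simp only
    rw [pow_succ, mul_two, add_nsmul]
    rw [← e] at e'
    rw [e']
    rfl
  · apply Set.infinite_range_of_injective
    intro m n hmn
    simp only at hmn
    obtain ⟨ym, hm, em, -⟩ := hsome m
    obtain ⟨yn, hn, en, -⟩ := hsome n
    rcases (Point.X_eq_iff (h₁ := hm) (h₂ := hn)).mp hmn with h | h
    · rw [← em, ← en] at h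
      exact Nat.pow_right_injective (le_refl 2) (hinj h)
    · rw [← em, ← en] at h
      exfalso
      apply hnz (2 ^ m + 2 ^ n) (by positivity)
      rw [add_nsmul, h, neg_add_cancel]

lemma rank_pos_iff (b : ℚ) : 0 < Module.rank ℤ (W b).Point ↔ Good b := by
  rw [pos_iff_ne_zero, Ne, rank_eq_zero_iff]
  constructor
  · intro h
    push Not at h
    obtain ⟨P, hP⟩ := h
    refine point_to_good P ?_
    intro hfin
    obtain ⟨k, hk, e⟩ := isOfFinAddOrder_iff_nsmul_eq_zero.mp hfin
    apply hP (k : ℤ) (by exact_mod_cast hk.ne')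
    rw [natCast_zsmul, e]
  · intro h hall
    obtain ⟨P, hP⟩ := good_to_point h
    obtain ⟨k, hk, e⟩ := hall P
    exact hP (isOfFinAddOrder_iff_zsmul_eq_zero.mpr ⟨k, hk, e⟩)

lemma good_scale {b u : ℚ} (hu : u ≠ 0) (h : Good b) : Good (b * u ^ 6) := by
  obtain ⟨x, y, h0, hne, hstep, hinf⟩ := h
  refine ⟨fun n => u ^ 2 * x n, u ^ 3 * y, ?_, ?_, ?_, ?_⟩
  · simp only
    linear_combination u ^ 6 * h0
  · intro n
    have : (u ^ 2 * x n) ^ 3 + b * u ^ 6 = u ^ 6 * (x n ^ 3 + b) := by ring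
    simp only
    rw [this]
    exact mul_ne_zero (pow_ne_zero _ hu) (hne n)
  · intro n
    have e : (u ^ 2 * x n) ^ 3 + b * u ^ 6 = u ^ 6 * (x n ^ 3 + b) := by ring
    have := hne n
    simp only [hstep n, dbl]
    rw [e]
    field_simp
  · intro hf
    apply hinf
    refine (hf.image (fun z => z / u ^ 2)).subset ?_
    rintro _ ⟨n, rfl⟩
    refine ⟨u ^ 2 * x n, ⟨n, rfl⟩, ?_⟩
    field_simp

lemma good_isog {b : ℚ} (h : Good b) : Good (-27 * b) := by
  obtain ⟨x, y, h0, hne, hstep, hinf⟩ := h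
  have hx0 : ∀ n, x n ≠ 0 := by
    intro n hn
    have hz : ∀ k, x (n + k) = 0 := by
      intro k
      induction k with
      | zero => simpa using hn
      | succ k ih => rw [← add_assoc, hstep, ih]; simp [dbl]
    apply hinf
    refine ((Set.finite_Iio n).image x |>.insert 0).subset ?_
    rintro _ ⟨m, rfl⟩
    by_cases hm : m < n
    · exact Or.inr ⟨m, hm, rfl⟩
    · left
      have := hz (m - n)
      rwa [Nat.add_sub_cancel' (not_lt.mp hm)] at this
  have h8 : ∀ n, x n ^ 3 - 8 * b ≠ 0 := by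
    intro n hn
    apply hx0 (n + 1)
    rw [hstep, dbl]
    have : x n ^ 4 - 8 * b * x n = x n * (x n ^ 3 - 8 * b) := by ring
    rw [this, hn]; simp
  have hid : ∀ n, ((x n ^ 3 + 4 * b) / x n ^ 2) ^ 3 + -27 * b
      = (x n ^ 3 + b) * (x n ^ 3 - 8 * b) ^ 2 / x n ^ 6 := by
    intro n
    have := hx0 n
    field_simp
    ring
  refine ⟨fun n => (x n ^ 3 + 4 * b) / x n ^ 2, y * (x 0 ^ 3 - 8 * b) / x 0 ^ 3, ?_, ?_, ?_, ?_⟩
  · simp only
    rw [hid 0, ← h0]
    have := hx0 0
    field_simp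
  · intro n
    simp only
    rw [hid n]
    exact div_ne_zero (mul_ne_zero (hne n) (pow_ne_zero _ (h8 n))) (pow_ne_zero _ (hx0 n))
  · intro n
    simp only
    rw [dbl, hid n, hstep n, dbl]
    have h1 := hx0 n
    have h2 := h8 n
    have h3 := hne n
    have e : x n ^ 4 - 8 * b * x n = x n * (x n ^ 3 - 8 * b) := by ring
    rw [e]
    generalize x n = t at *
    field_simp
    ring
  · intro hf
    apply hinf
    have : Set.range x ⊆ ⋃ c ∈ Set.range (fun n => (x n ^ 3 + 4 * b) / x n ^ 2),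
        ((Polynomial.X ^ 3 - Polynomial.C c * Polynomial.X ^ 2 + Polynomial.C (4 * b) :
          Polynomial ℚ).rootSet ℚ) := by
      rintro _ ⟨n, rfl⟩
      simp only [Set.mem_iUnion]
      refine ⟨_, ⟨n, rfl⟩, ?_⟩
      rw [Polynomial.mem_rootSet]
      refine ⟨?_, ?_⟩
      · intro hz
        have := congrArg (fun p => Polynomial.coeff p 3) hz
        simp [Polynomial.coeff_X_pow] at this
      · have := hx0 n
        simp
        field_simp
        ring
    exact (hf.biUnion (fun c _ => Polynomial.rootSet_finite _ _)).subset this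

lemma good_two_adic {b x0 y : ℚ} (hb : padicNorm 2 b ≤ 1) (h : y ^ 2 = x0 ^ 3 + b)
    (hx : 1 < padicNorm 2 x0) : Good b := by
  have hstep : ∀ x : ℚ, 1 < padicNorm 2 x →
      x ^ 3 + b ≠ 0 ∧ padicNorm 2 (dbl b x) = 4 * padicNorm 2 x := by
    intro x hx
    have h3 : padicNorm 2 (x ^ 3) = padicNorm 2 x ^ 3 := by
      rw [pow_succ, pow_succ, pow_one, padicNorm.mul, padicNorm.mul]; ring
    have hlt : 1 < padicNorm 2 (x ^ 3) := by
      rw [h3]; exact one_lt_pow₀ hx (by norm_num)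
    have h8 : padicNorm 2 (-(8 * b)) ≤ 1 := by
      rw [padicNorm.neg, padicNorm.mul]
      have : padicNorm 2 (8 : ℚ) ≤ 1 := by exact_mod_cast padicNorm.of_nat (p := 2) 8
      exact mul_le_one₀ this (padicNorm.nonneg _) hb
    have e1 : padicNorm 2 (x ^ 3 + b) = padicNorm 2 (x ^ 3) := by
      rw [padicNorm.add_eq_max_of_ne (by linarith), max_eq_left (by linarith)]
    have e2 : padicNorm 2 (x ^ 3 + -(8 * b)) = padicNorm 2 (x ^ 3) := by
      rw [padicNorm.add_eq_max_of_ne (by linarith), max_eq_left (by linarith)]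
    have e4 : padicNorm 2 (4 : ℚ) = 1 / 4 := by
      have h2 : padicNorm 2 (2 : ℚ) = 1 / 2 := by
        have := padicNorm.padicNorm_p_of_prime (p := 2)
        simpa using this
      have : (4 : ℚ) = 2 * 2 := by norm_num
      rw [this, padicNorm.mul, h2]; norm_num
    refine ⟨?_, ?_⟩
    · intro hz
      rw [hz, padicNorm.zero] at e1
      linarith
    · have e : x ^ 4 - 8 * b * x = x * (x ^ 3 + -(8 * b)) := by ring
      rw [dbl, e, padicNorm.div, padicNorm.mul, padicNorm.mul, e1, e2, e4]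
      have : padicNorm 2 (x ^ 3) ≠ 0 := by linarith
      field_simp
  have hit : ∀ n : ℕ, padicNorm 2 ((dbl b)^[n] x0) = 4 ^ n * padicNorm 2 x0 ∧
      1 < padicNorm 2 ((dbl b)^[n] x0) := by
    intro n
    induction n with
    | zero => simpa using hx
    | succ n ih =>
      rw [Function.iterate_succ_apply', (hstep _ ih.2).2]
      refine ⟨by rw [ih.1]; ring, by linarith [ih.2]⟩
  refine ⟨fun n => (dbl b)^[n] x0, y, by simpa using h, fun n => (hstep _ (hit n).2).1,
    fun n => Function.iterate_succ_apply' _ _ _, ?_⟩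
  apply Set.infinite_range_of_injective
  intro m n hmn
  simp only at hmn
  have h1 := (hit m).1
  rw [hmn, (hit n).1] at h1
  have hpos : padicNorm 2 x0 ≠ 0 := by linarith
  have h2 : (4 : ℚ) ^ n = 4 ^ m := mul_right_cancel₀ hpos h1
  exact (pow_right_injective₀ (by norm_num) (by norm_num) h2).symm

end Pool.Agent.Lib.MP_cfe824_nt
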