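import Mathlib
import Pool.Agent.Lib.MP_cfe824_nt.Orbit

set_option autoImplicit false

namespace Pool.Agent.Lib.MP_cfe824_nt

lemma v_nat (n : ℕ) : padicValRat 2 ((2 : ℚ) ^ n) = n := by
  rw [padicValRat.pow]
  have : padicValRat 2 (2 : ℚ) = 1 := by simpa using padicValRat.self (p := 2) (by norm_num)
  rw [this, mul_one]

lemma v4 : padicValRat 2 (4 : ℚ) = 2 := by simpa [show (2 : ℚ) ^ 2 = 4 by norm_num] using v_nat 2

lemma v8 : padicValRat 2 (8 : ℚ) = 3 := by simpa [show (2 : ℚ) ^ 3 = 8 by norm_num] using v_nat 3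

lemma v27 : padicValRat 2 (27 : ℚ) = 0 := by
  have : padicValRat 2 ((27 : ℕ) : ℚ) = 0 := by
    rw [padicValRat.of_nat, padicValNat.eq_zero_of_not_dvd (by norm_num)]; rfl
  simpa using this

lemma v_unit {u : ℚ} (h0 : u ≠ 0) (h : padicValRat 2 u = 0) (h1 : u + 1 ≠ 0) :
    1 ≤ padicValRat 2 (u + 1) := by
  have hd : ¬ 2 ∣ u.den := by
    intro hc
    have a : 1 ≤ padicValNat 2 u.den := one_le_padicValNat_of_dvd u.den_ne_zero hc
    have b : padicValNat 2 u.num.natAbs = padicValNat 2 u.den := by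
      simp only [padicValRat, padicValInt] at h; omega
    have c : 2 ∣ u.num.natAbs := dvd_of_one_le_padicValNat (by omega)
    have := Nat.eq_one_of_dvd_coprimes u.reduced c hc
    omega
  have hv : padicValNat 2 u.den = 0 := padicValNat.eq_zero_of_not_dvd hd
  have hn : ¬ 2 ∣ u.num.natAbs := by
    intro hc
    have a : 1 ≤ padicValNat 2 u.num.natAbs :=
      one_le_padicValNat_of_dvd (Int.natAbs_ne_zero.2 (Rat.num_ne_zero.2 h0)) hc
    simp only [padicValRat, padicValInt] at h; omega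
  obtain ⟨c, hc⟩ : (2 : ℤ) ∣ u.num + u.den := by omega
  have dz : (u.den : ℚ) ≠ 0 := by exact_mod_cast u.den_ne_zero
  have e : u + 1 = 2 ^ 1 * (c : ℚ) / u.den := by
    have : (u.num : ℚ) + u.den = 2 * c := by exact_mod_cast hc
    rw [pow_one, ← this, add_div, Rat.num_div_den, div_self dz]
  have cz : (c : ℚ) ≠ 0 := by rintro hz; rw [e, hz] at h1; simp at h1
  rw [e, padicValRat.div (by positivity) dz, padicValRat.mul (by norm_num) cz, v_nat,
    padicValRat.of_nat, hv, padicValRat.of_int]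
  omega

lemma v_two {q r : ℚ} (hq : q ≠ 0) (hr : r ≠ 0) (h : padicValRat 2 q = padicValRat 2 r)
    (h1 : q + r ≠ 0) : padicValRat 2 q + 1 ≤ padicValRat 2 (q + r) := by
  have e : q + r = (q / r + 1) * r := by field_simp
  have n : q / r + 1 ≠ 0 := fun c => h1 (by rw [e, c, zero_mul])
  have := v_unit (div_ne_zero hq hr) (by rw [padicValRat.div hq hr]; omega) n
  rw [e, padicValRat.mul n hr]
  omega

lemma goodA {b x y : ℚ} (h : y ^ 2 = x ^ 3 + b) (hb : ∀ t : ℚ, t ^ 3 + b ≠ 0) (hx : x ≠ 0)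
    (hv : 3 * padicValRat 2 x ≤ padicValRat 2 b + 1) : Good b := by
  have b0 : b ≠ 0 := by simpa using hb 0
  have step : ∀ x : ℚ, x ≠ 0 → 3 * padicValRat 2 x ≤ padicValRat 2 b + 1 →
      dbl b x ≠ 0 ∧ padicValRat 2 (dbl b x) < padicValRat 2 x := by
    intro x hx hv
    have n1 : x ^ 3 + -(8 * b) ≠ 0 := fun c => hb (-x / 2) (by linear_combination -c / 8)
    have x3 : padicValRat 2 (x ^ 3) = 3 * padicValRat 2 x := by rw [padicValRat.pow]; rfl
    have a1 : padicValRat 2 (x ^ 3 + -(8 * b)) = 3 * padicValRat 2 x := by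
      rw [padicValRat.add_eq_of_lt n1 (pow_ne_zero 3 hx) (by simpa using b0), x3]
      rw [x3, padicValRat.neg, padicValRat.mul (by norm_num) b0, v8]; omega
    have a2 := padicValRat.min_le_padicValRat_add (p := 2) (hb x)
    have e : dbl b x = x * (x ^ 3 + -(8 * b)) / (4 * (x ^ 3 + b)) := by rw [dbl]; ring
    have n2 : 4 * (x ^ 3 + b) ≠ 0 := mul_ne_zero (by norm_num) (hb x)
    refine ⟨e ▸ div_ne_zero (mul_ne_zero hx n1) n2, ?_⟩
    rw [e, padicValRat.div (mul_ne_zero hx n1) n2, padicValRat.mul hx n1,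
      padicValRat.mul (by norm_num) (hb x), a1, v4]
    rw [x3] at a2
    omega
  have inv : ∀ n : ℕ, (dbl b)^[n] x ≠ 0 ∧
      3 * padicValRat 2 ((dbl b)^[n] x) ≤ padicValRat 2 b + 1 := by
    intro n
    induction n with
    | zero => exact ⟨hx, hv⟩
    | succ n ih =>
      have := step _ ih.1 ih.2
      rw [Function.iterate_succ_apply']
      exact ⟨this.1, by omega⟩
  refine ⟨fun n => (dbl b)^[n] x, y, h, fun n => hb _,
    fun n => Function.iterate_succ_apply' _ _ _, Set.infinite_range_of_injective ?_⟩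
  have : StrictAnti fun n : ℕ => padicValRat 2 ((dbl b)^[n] x) :=
    strictAnti_nat_of_succ_lt fun n => by
      rw [Function.iterate_succ_apply']; exact (step _ (inv n).1 (inv n).2).2
  exact fun m n e => this.injective (by simp only at e ⊢; rw [e])

lemma good_down {b : ℚ} (h : Good (-27 * b)) : Good b := by
  have := good_scale (u := 1 / 3) (by norm_num) (good_isog h)
  rwa [show -27 * (-27 * b) * (1 / 3) ^ 6 = b by ring] at this

lemma isog_pt {b x y : ℚ} (h : y ^ 2 = x ^ 3 + b) (hx : x ≠ 0) :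
    (y * (x ^ 3 - 8 * b) / x ^ 3) ^ 2 = ((x ^ 3 + 4 * b) / x ^ 2) ^ 3 + -27 * b := by
  rw [div_pow, mul_pow, h]; field_simp; ring

lemma isog_nc {b : ℚ} (hb : ∀ t : ℚ, t ^ 3 + b ≠ 0) (t : ℚ) : t ^ 3 + -27 * b ≠ 0 :=
  fun c => hb (-t / 3) (by linear_combination -c / 27)

lemma v_isog {b : ℚ} (b0 : b ≠ 0) : padicValRat 2 (-27 * b) = padicValRat 2 b := by
  rw [padicValRat.mul (by norm_num) b0, padicValRat.neg, v27, zero_add]

lemma goodB {b x y : ℚ} (h : y ^ 2 = x ^ 3 + b) (hb : ∀ t : ℚ, t ^ 3 + b ≠ 0) (hx : x ≠ 0)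
    (hv : padicValRat 2 b + 3 ≤ 3 * padicValRat 2 x) : Good b := by
  have b0 : b ≠ 0 := by simpa using hb 0
  have x3 : padicValRat 2 (x ^ 3) = 3 * padicValRat 2 x := by rw [padicValRat.pow]; rfl
  have x2 : padicValRat 2 (x ^ 2) = 2 * padicValRat 2 x := by rw [padicValRat.pow]; rfl
  have b4 : padicValRat 2 (4 * b) = 2 + padicValRat 2 b := by
    rw [padicValRat.mul (by norm_num) b0, v4]
  have n1 : 4 * b + x ^ 3 ≠ 0 := fun c => by
    have : x ^ 3 = -(4 * b) := by linarith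
    rw [this, padicValRat.neg] at x3
    omega
  have a1 := padicValRat.add_eq_of_lt (p := 2) n1 (by positivity) (pow_ne_zero 3 hx) (by omega)
  rw [add_comm] at n1 a1
  refine good_down (goodA (isog_pt h hx) (isog_nc hb) (div_ne_zero n1 (pow_ne_zero 2 hx)) ?_)
  rw [padicValRat.div n1 (pow_ne_zero 2 hx), v_isog b0]
  omega

lemma good_any {b x y : ℚ} (h : y ^ 2 = x ^ 3 + b) (hb : ∀ t : ℚ, t ^ 3 + b ≠ 0) (hx : x ≠ 0)
    (h4 : x ^ 3 + 4 * b ≠ 0) : Good b := by
  have b0 : b ≠ 0 := by simpa using hb 0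
  by_cases c1 : 3 * padicValRat 2 x ≤ padicValRat 2 b + 1
  · exact goodA h hb hx c1
  by_cases c2 : padicValRat 2 b + 3 ≤ 3 * padicValRat 2 x
  · exact goodB h hb hx c2
  have x3 : padicValRat 2 (x ^ 3) = 3 * padicValRat 2 x := by rw [padicValRat.pow]; rfl
  have x2 : padicValRat 2 (x ^ 2) = 2 * padicValRat 2 x := by rw [padicValRat.pow]; rfl
  have b4 : padicValRat 2 (4 * b) = 2 + padicValRat 2 b := by
    rw [padicValRat.mul (by norm_num) b0, v4]
  have a1 := v_two (pow_ne_zero 3 hx) (by positivity : 4 * b ≠ 0) (by omega) h4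
  refine good_down (goodB (isog_pt h hx) (isog_nc hb) (div_ne_zero h4 (pow_ne_zero 2 hx)) ?_)
  rw [padicValRat.div h4 (pow_ne_zero 2 hx), v_isog b0]
  omega

/-- If an odd prime divides `b` exactly once, every rational point has infinite order. -/
lemma good_pt {b : ℤ} {p : ℕ} (hp : p.Prime) (h2 : 2 < p) (h1 : (p : ℤ) ∣ b)
    (h3 : ¬ (p : ℤ) ^ 2 ∣ b) {x y : ℚ} (h : y ^ 2 = x ^ 3 + b) : Good (b : ℚ) := by
  have : Fact p.Prime := ⟨hp⟩
  have b0 : b ≠ 0 := by rintro rfl; simp at h3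
  have b0' : (b : ℚ) ≠ 0 := by exact_mod_cast b0
  have vb : padicValRat p (b : ℚ) = 1 := by
    rw [padicValRat.of_int]
    have a1 := (padicValInt_dvd_iff (p := p) 1 b).1 (by simpa using h1)
    have a2 := mt (padicValInt_dvd_iff (p := p) 2 b).2 h3
    omega
  have v4' : padicValRat p (4 : ℚ) = 0 := by
    have : padicValRat p ((4 : ℕ) : ℚ) = 0 := by
      rw [padicValRat.of_nat, padicValNat.eq_zero_of_not_dvd]
      · rfl
      · intro c
        have := Nat.le_of_dvd two_pos (hp.dvd_of_dvd_pow (show p ∣ 2 ^ 2 from c))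
        omega
    simpa using this
  have key : ∀ (t c : ℚ) (n : ℕ), 1 < n → c ≠ 0 → padicValRat p c = 1 → t ^ n ≠ c := by
    rintro t c n hn c0 vc rfl
    rw [padicValRat.pow] at vc
    have := Int.eq_one_of_mul_eq_one_right (by positivity) vc
    omega
  refine good_any h (fun t c => key t (-b) 3 (by norm_num) (by simpa using b0)
    (by rw [padicValRat.neg, vb]) (by linarith)) (fun c => key y b 2 (by norm_num) b0' vb ?_)
    fun c => key x (-(4 * b)) 3 (by norm_num) (by simpa using b0) ?_ (by linarith)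
  · rw [h, c]; ring
  · rw [padicValRat.neg, padicValRat.mul (by norm_num) b0', v4', vb, zero_add]

end Pool.Agent.Lib.MP_cfe824_nt
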