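import Mathlib
import Pool.Agent.Lib.MP_cfe824_nt.Tors

set_option autoImplicit false

namespace Pool.Agent.Lib.MP_cfe824_nt

/-- The curve y^2 = x^3 + b has an affine rational point. -/
def HasPt (b : ℚ) : Prop := ∃ x y : ℚ, y ^ 2 = x ^ 3 + b

lemma HasPt.of {b c : ℚ} (u : ℚ) (h : HasPt b) (e : c = b * u ^ 6) : HasPt c := by
  obtain ⟨x, y, h⟩ := h
  exact ⟨u ^ 2 * x, u ^ 3 * y, by rw [e]; linear_combination u ^ 6 * h⟩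

/-- The quadratic factor. -/
def GG (γ s : ℚ) : ℚ := s ^ 2 + (γ ^ 4 - 6 * γ ^ 2 - 3) / 4 * s + γ ^ 2

lemma pt0 (γ s : ℚ) : HasPt ((γ ^ 2 - 9) ^ 2 * GG γ s) :=
  ⟨(γ ^ 2 - 1) * (γ ^ 2 - 9) / 4, (γ ^ 2 - 9) * (s + (γ ^ 4 - 6 * γ ^ 2 - 3) / 8), by
    simp only [GG]; ring⟩

lemma pt1 (γ s : ℚ) : HasPt (γ ^ 8 * (γ ^ 2 - 9) ^ 2 / 729 * s * GG γ s) :=
  ⟨s ^ 2 + 2 * (γ ^ 4 / 9 - 2 * γ ^ 2 / 3) * s + (γ ^ 2 / 3) ^ 2,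
    s ^ 3 + 3 * (γ ^ 4 / 9 - 2 * γ ^ 2 / 3) * s ^ 2 +
      3 / 2 * ((γ ^ 2 / 3) ^ 2 + (γ ^ 4 / 9 - 2 * γ ^ 2 / 3) ^ 2) * s + (γ ^ 2 / 3) ^ 3, by
    simp only [GG]; ring⟩

lemma pt2 (γ s : ℚ) : HasPt (4 * (γ - 3) ^ 2 * s ^ 2 * GG γ s) :=
  ⟨-(γ + 1) * (γ - 3) * s, 2 * (γ - 3) * s * (s + γ), by simp only [GG]; ring⟩

lemma pt3 (γ s : ℚ) : HasPt (γ ^ 12 * (γ ^ 2 - 9) ^ 2 / 729 * s ^ 3 * GG γ s) :=
  ⟨γ ^ 4 + 2 * (γ ^ 4 / 9 - 2 * γ ^ 2 / 3) * γ ^ 2 * s + (γ ^ 2 / 3) ^ 2 * s ^ 2,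
    γ ^ 6 + 3 * (γ ^ 4 / 9 - 2 * γ ^ 2 / 3) * γ ^ 4 * s +
      3 / 2 * ((γ ^ 2 / 3) ^ 2 + (γ ^ 4 / 9 - 2 * γ ^ 2 / 3) ^ 2) * γ ^ 2 * s ^ 2 +
      (γ ^ 2 / 3) ^ 3 * s ^ 3, by
    simp only [GG]; ring⟩

lemma pt4 (γ s : ℚ) : HasPt ((γ ^ 2 - 9) ^ 2 * γ ^ 2 * s ^ 4 * GG γ s) :=
  ⟨s ^ 2 * (γ ^ 2 - 1) * (γ ^ 2 - 9) / 4,
    (γ ^ 2 - 9) * s ^ 2 * (γ ^ 2 + (γ ^ 4 - 6 * γ ^ 2 - 3) / 8 * s), by simp only [GG]; ring⟩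

lemma pt5 (γ s : ℚ) : HasPt (s * GG γ s) :=
  ⟨1 - s, (γ ^ 2 - 3) / 2 * s + 1, by simp only [GG]; ring⟩

lemma pt_all {γ w T : ℚ} (hγ : γ ≠ 0) (hw : w ≠ 0) (rel : (γ + 3) * w ^ 3 = 2 * γ) (r : ℕ)
    (h6 : r < 6) (hr : r ≠ 5 ∨ ∃ d : ℚ, T = 4 * (w ^ 3 - 1) * d ^ 3) :
    HasPt ((γ ^ 2 - 9) ^ 2 * GG γ (γ ^ 4 * T) * T ^ r) := by
  interval_cases r
  · simpa using pt0 γ (γ ^ 4 * T)
  · exact (pt1 γ (γ ^ 4 * T)).of (3 / γ ^ 2) (by field_simp; ring)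
  · refine (pt2 γ (γ ^ 4 * T)).of (1 / (γ * w)) ?_
    have : 4 * γ ^ 2 = (γ + 3) ^ 2 * w ^ 6 := by
      rw [show (γ + 3) ^ 2 * w ^ 6 = ((γ + 3) * w ^ 3) ^ 2 by ring, rel]; ring
    field_simp
    linear_combination (-(γ - 3) ^ 2 * GG γ (γ ^ 4 * T) * T ^ 2) * this
  · exact (pt3 γ (γ ^ 4 * T)).of (3 / γ ^ 4) (by field_simp; ring)
  · exact (pt4 γ (γ ^ 4 * T)).of (1 / γ ^ 3) (by field_simp)
  · obtain ⟨d, hd⟩ := hr.resolve_left (by simp)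
    refine (pt5 γ (γ ^ 4 * T)).of (4 * (w ^ 3 - 1) * d ^ 2 / w ^ 2) ?_
    have h1 : (γ - 3) * w ^ 3 = 2 * γ * (w ^ 3 - 1) := by linear_combination -rel
    have h2 : (γ ^ 2 - 9) * w ^ 6 = 4 * γ ^ 2 * (w ^ 3 - 1) := by
      rw [show (γ ^ 2 - 9) * w ^ 6 = ((γ + 3) * w ^ 3) * ((γ - 3) * w ^ 3) by ring, rel, h1]; ring
    have h3 : γ ^ 2 - 9 = 4 * γ ^ 2 * (w ^ 3 - 1) / w ^ 6 := by rw [← h2]; field_simp
    generalize GG γ (γ ^ 4 * T) = G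
    rw [h3, hd]
    field_simp

lemma exists_free : ∀ (n : ℕ) (a : ℤ), a.natAbs = n → a ≠ 0 →
    ∃ a0 t : ℤ, t ≠ 0 ∧ a = a0 * t ^ 6 ∧ ∀ s : ℤ, s ^ 6 ∣ a0 → IsUnit s := by
  intro n
  induction n using Nat.strong_induction_on with
  | _ n ih =>
    intro a hn ha
    by_cases h : ∀ s : ℤ, s ^ 6 ∣ a → IsUnit s
    · exact ⟨a, 1, one_ne_zero, by ring, h⟩
    push Not at h
    obtain ⟨s, ⟨c, rfl⟩, hs⟩ := h
    have hs0 : s ≠ 0 := by rintro rfl; simp at ha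
    have hc : c ≠ 0 := by rintro rfl; simp at ha
    have h1 : 1 < s.natAbs := by
      have := Int.natAbs_pos.2 hs0
      have : s.natAbs ≠ 1 := fun e => hs (Int.isUnit_iff_natAbs_eq.2 e)
      omega
    have h2 : c.natAbs < n := by
      rw [← hn, Int.natAbs_mul, Int.natAbs_pow]
      exact lt_mul_of_one_lt_left (Int.natAbs_pos.2 hc) (Nat.one_lt_pow (by norm_num) h1)
    obtain ⟨a0, t, ht, e, hf⟩ := ih _ h2 c rfl hc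
    exact ⟨a0, s * t, mul_ne_zero hs0 ht, by rw [e]; ring, hf⟩

lemma exists_prime (A c e Q : ℤ) (hA : A ≠ 0) (he : e ≠ 0) (hQ : Q ≠ 0)
    (hD : (16 * c) ^ 2 - 4 * (16 * e) ≠ 0) (M : ℕ) :
    ∃ (k : ℤ) (p : ℕ), k ≠ 0 ∧ p.Prime ∧ M < p ∧ 2 < p ∧ ¬ (p : ℤ) ∣ Q ∧
      (p : ℤ) ∣ A * (1 + 16 * c * (Q * k ^ 6) + 16 * e * (Q * k ^ 6) ^ 2) ∧
      ¬ (p : ℤ) ^ 2 ∣ A * (1 + 16 * c * (Q * k ^ 6) + 16 * e * (Q * k ^ 6) ^ 2) := by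
  obtain ⟨n, hn⟩ : ∃ n : ℕ,
    n = M + 6 + A.natAbs + c.natAbs + ((16 * c) ^ 2 - 4 * (16 * e)).natAbs := ⟨_, rfl⟩
  obtain ⟨k, k0, k1, hk⟩ : ∃ k : ℕ, 0 < k ∧ n ≤ k ∧ ∀ p : ℕ, p.Prime → p ≤ n → p ∣ k :=
    ⟨n.factorial, Nat.factorial_pos _, Nat.self_le_factorial _,
      fun p hp h => hp.dvd_factorial.2 h⟩
  obtain ⟨f, hf⟩ : ∃ f : ℤ → ℤ, ∀ m, f m = 1 + 16 * c * m + 16 * e * m ^ 2 := ⟨_, fun _ => rfl⟩
  simp only [← hf]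
  have hm : Q * (k : ℤ) ^ 6 ≠ 0 := mul_ne_zero hQ (by positivity)
  have h1 : (f (Q * k ^ 6)).natAbs ≠ 1 := by
    have e1 : f (Q * k ^ 6) = 1 + 16 * ((Q * k ^ 6) * (c + e * (Q * k ^ 6))) := by
      rw [hf]; ring
    have : (Q * (k : ℤ) ^ 6) * (c + e * (Q * k ^ 6)) ≠ 0 := by
      refine mul_ne_zero hm fun z => ?_
      have d : (k : ℤ) ∣ c := ⟨-(e * Q * k ^ 5), by linear_combination z⟩
      have c0 : c = 0 := by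
        by_contra c0
        have := Nat.le_of_dvd (Int.natAbs_pos.2 c0) (Int.natCast_dvd.1 d)
        omega
      rw [c0, zero_add] at z
      exact mul_ne_zero he hm z
    omega
  obtain ⟨p, hp, hd⟩ := Nat.exists_prime_and_dvd h1
  have hd' : (p : ℤ) ∣ f (Q * k ^ 6) := Int.natCast_dvd.2 hd
  have pp : Prime (p : ℤ) := Nat.prime_iff_prime_int.1 hp
  have nm : ¬ (p : ℤ) ∣ Q * k ^ 6 := fun h => pp.not_dvd_one (by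
    have e1 : (1 : ℤ) = f (Q * k ^ 6) - Q * k ^ 6 * (16 * c + 16 * e * (Q * k ^ 6)) := by
      rw [hf]; ring
    rw [e1]; exact dvd_sub hd' (h.mul_right _))
  have nk : ¬ (p : ℤ) ∣ k := fun h => nm ((h.pow (by norm_num)).mul_left _)
  have nQ : ¬ (p : ℤ) ∣ Q := fun h => nm (h.mul_right _)
  have big : n < p := by
    by_contra hc
    exact nk (Int.natCast_dvd_natCast.2 (hk p hp (by omega)))
  have small : ∀ z : ℤ, z ≠ 0 → z.natAbs ≤ n → ¬ (p : ℤ) ∣ z := fun z h0 h1 h => by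
    have := Nat.le_of_dvd (Int.natAbs_pos.2 h0) (Int.natCast_dvd.1 h)
    omega
  have strip : ∀ x : ℤ, (p : ℤ) ^ 2 ∣ A * x → (p : ℤ) ^ 2 ∣ x := fun x h =>
    pp.pow_dvd_of_dvd_mul_left 2 (small A hA (by omega)) h
  by_cases q : (p : ℤ) ^ 2 ∣ f (Q * k ^ 6)
  swap
  · exact ⟨k, p, by positivity, hp, by omega, by omega, nQ, hd'.mul_left _,
      fun h => q (strip _ h)⟩
  obtain ⟨R, hR⟩ : ∃ R : ℤ, ((k : ℤ) + p) ^ 6 = k ^ 6 + p * (6 * k ^ 5 + p * R) :=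
    ⟨15 * k ^ 4 + 20 * k ^ 3 * p + 15 * k ^ 2 * p ^ 2 + 6 * k * p ^ 3 + p ^ 4, by ring⟩
  have e1 : f (Q * (k + p) ^ 6) = f (Q * k ^ 6) + p * (Q * (6 * k ^ 5 + p * R) *
      (16 * c + 2 * (16 * e) * (Q * k ^ 6) + p * (16 * e * Q * (6 * k ^ 5 + p * R)))) := by
    rw [hR, hf, hf]; ring
  refine ⟨k + p, p, by positivity, hp, by omega, by omega, nQ,
    Dvd.dvd.mul_left (by rw [e1]; exact dvd_add hd' (dvd_mul_right _ _)) _, fun h => ?_⟩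
  have h2 := strip _ h
  rw [e1, dvd_add_right q, sq, mul_dvd_mul_iff_left pp.ne_zero] at h2
  rcases pp.dvd_or_dvd h2 with h3 | h3
  · rcases pp.dvd_or_dvd h3 with h4 | h4
    · exact nQ h4
    · rw [dvd_add_left (dvd_mul_right _ _)] at h4
      rcases pp.dvd_or_dvd h4 with h5 | h5
      · exact small 6 (by norm_num) (by omega) h5
      · exact nk (pp.dvd_of_dvd_pow h5)
  · rw [dvd_add_left (dvd_mul_right _ _)] at h3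
    refine small _ hD (by omega) ?_
    have e2 : (16 * c) ^ 2 - 4 * (16 * e) = (16 * c + 2 * (16 * e) * (Q * k ^ 6)) *
        (16 * c + 2 * (16 * e) * (Q * k ^ 6)) - 4 * (16 * e) * f (Q * k ^ 6) := by
      rw [hf]; ring
    rw [e2]
    exact dvd_sub (h3.mul_right _) (hd'.mul_left _)

lemma ne_zero_of_not_dvd {a b : ℤ} (h : ¬ a ∣ b) : b ≠ 0 := fun z => h (z ▸ dvd_zero _)

lemma cube_ne (w : ℚ) (c : ℚ) (hc : padicValRat 2 c = 1) : w ^ 3 ≠ c := by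
  rintro rfl
  rw [padicValRat.pow] at hc
  omega

lemma fam (w : ℚ) (hw : w ≠ 0) (h1 : w ^ 3 ≠ 1) (h2 : w ^ 3 ≠ -1) (Q : ℤ) (hQ : Q ≠ 0) :
    {a : ℤ | (∀ s : ℤ, s ^ 6 ∣ a → IsUnit s) ∧ ∀ i : ℕ,
      (i % 6 ≠ 5 ∨ ∃ d : ℚ, (Q : ℚ) = 4 * (w ^ 3 - 1) * d ^ 3) →
        Good ((a : ℚ) * (Q : ℚ) ^ i)}.Infinite := by
  have v2 : padicValRat 2 (2 : ℚ) = 1 := by simpa using v_nat 1
  have n2 : 2 - w ^ 3 ≠ 0 := fun c => cube_ne w 2 v2 (by linarith)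
  have n3 : 2 * w ^ 3 ≠ 1 := fun c => cube_ne (1 / w) 2 v2 (by field_simp; linarith)
  obtain ⟨γ, rel⟩ : ∃ γ : ℚ, (γ + 3) * w ^ 3 = 2 * γ :=
    ⟨3 * w ^ 3 / (2 - w ^ 3), by field_simp; ring⟩
  have γ0 : γ ≠ 0 := by
    rintro rfl
    exact pow_ne_zero 3 hw (by linarith)
  have γ1 : γ ^ 2 - 1 ≠ 0 := by
    rw [show γ ^ 2 - 1 = (γ - 1) * (γ + 1) by ring]
    refine mul_ne_zero (fun c => n3 ?_) fun c => h2 ?_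
    · rw [show γ = 1 by linarith] at rel; linarith
    · rw [show γ = -1 by linarith] at rel; linarith
  have γ3 : γ ^ 2 - 9 ≠ 0 := by
    rw [show γ ^ 2 - 9 = (γ - 3) * (γ + 3) by ring]
    refine mul_ne_zero (fun c => h1 ?_) fun c => ?_
    · rw [show γ = 3 by linarith] at rel; linarith
    · rw [show γ = -3 by linarith] at rel; linarith
  obtain ⟨g, h, h0, hγ⟩ : ∃ g h : ℤ, (h : ℚ) ≠ 0 ∧ (g : ℚ) = γ * h :=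
    ⟨γ.num, γ.den, by exact_mod_cast γ.den_ne_zero, by simp⟩
  have hA : g ^ 2 * (g ^ 2 - 9 * h ^ 2) ^ 2 ≠ 0 := by
    have : ((g ^ 2 * (g ^ 2 - 9 * h ^ 2) ^ 2 : ℤ) : ℚ) = γ ^ 2 * (γ ^ 2 - 9) ^ 2 * h ^ 6 := by
      push_cast; rw [hγ]; ring
    exact (Int.cast_ne_zero (α := ℚ)).1 (by rw [this]; positivity)
  have he : 256 * g ^ 6 * h ^ 6 ≠ 0 := by
    have : ((256 * g ^ 6 * h ^ 6 : ℤ) : ℚ) = 256 * γ ^ 6 * h ^ 12 := by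
      push_cast; rw [hγ]; ring
    exact (Int.cast_ne_zero (α := ℚ)).1 (by rw [this]; positivity)
  have hD : (16 * (g ^ 2 * (g ^ 4 - 6 * g ^ 2 * h ^ 2 - 3 * h ^ 4))) ^ 2 -
      4 * (16 * (256 * g ^ 6 * h ^ 6)) ≠ 0 := by
    have : (((16 * (g ^ 2 * (g ^ 4 - 6 * g ^ 2 * h ^ 2 - 3 * h ^ 4))) ^ 2 -
        4 * (16 * (256 * g ^ 6 * h ^ 6)) : ℤ) : ℚ) =
        256 * γ ^ 4 * (γ ^ 2 - 1) ^ 3 * (γ ^ 2 - 9) * h ^ 12 := by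
      push_cast; rw [hγ]; ring
    exact (Int.cast_ne_zero (α := ℚ)).1 (by rw [this]; positivity)
  intro hfin
  obtain ⟨M, hM⟩ := (hfin.image Int.natAbs).bddAbove
  obtain ⟨k, p, hk, hp, hMp, p2, pQ, d1, d2⟩ := exists_prime _ _ _ Q hA he hQ hD M
  obtain ⟨a0, t, ht, e, hf⟩ := exists_free _ _ rfl (ne_zero_of_not_dvd d2)
  have pp : Prime (p : ℤ) := Nat.prime_iff_prime_int.1 hp
  rw [e] at d1 d2
  have h3 : (p : ℤ) ∣ a0 := by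
    refine (pp.dvd_or_dvd d1).resolve_right fun h => d2 (Dvd.dvd.mul_left ?_ _)
    exact (pow_dvd_pow_of_dvd (pp.dvd_of_dvd_pow h) 2).trans (pow_dvd_pow t (by norm_num))
  have h4 : a0 ≠ 0 := by rintro rfl; simp at d2
  have h5 : p ≤ a0.natAbs := Nat.le_of_dvd (Int.natAbs_pos.2 h4) (Int.natCast_dvd.1 h3)
  have h6 : a0.natAbs ≤ M := hM ⟨a0, ⟨hf, fun i hi => ?_⟩, rfl⟩
  · omega
  have ht' : (t : ℚ) ≠ 0 := by exact_mod_cast ht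
  have hk' : (k : ℚ) ≠ 0 := by exact_mod_cast hk
  have hQ' : (Q : ℚ) ≠ 0 := by exact_mod_cast hQ
  have e' : (γ ^ 2 - 9) ^ 2 * GG γ (γ ^ 4 * (Q * (2 * h * k) ^ 6)) * h ^ 6 = a0 * t ^ 6 := by
    have := congrArg (Int.cast : ℤ → ℚ) e
    push_cast at this
    rw [← this, hγ, GG]; ring
  have pt := pt_all (T := Q * (2 * h * k) ^ 6) γ0 hw rel (i % 6) (Nat.mod_lt _ (by norm_num))
    (hi.imp_right fun ⟨d, hd⟩ => ⟨d * (2 * h * k) ^ 2, by rw [hd]; ring⟩)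
  obtain ⟨x, y, hxy⟩ : HasPt ((a0 * Q ^ i : ℤ) : ℚ) := by
    refine pt.of (h * Q ^ (i / 6) / (t * (2 * h * k) ^ (i % 6))) ?_
    have e2 : (γ ^ 2 - 9) ^ 2 * GG γ (γ ^ 4 * (Q * (2 * h * k) ^ 6)) = a0 * t ^ 6 / h ^ 6 := by
      rw [← e']; field_simp
    rw [e2]
    push_cast
    conv_lhs => rw [← Nat.mod_add_div i 6]
    generalize i % 6 = r
    generalize i / 6 = q
    have hu : (2 * (h : ℚ) * k) ≠ 0 := by positivity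
    generalize 2 * (h : ℚ) * k = u at hu
    field_simp
    ring
  have := good_pt hp p2 (h3.mul_right _) (fun c => d2 (Dvd.dvd.mul_right
    (pp.pow_dvd_of_dvd_mul_right 2 (fun z => pQ (pp.dvd_of_dvd_pow z)) c) _)) hxy
  exact_mod_cast this

end Pool.Agent.Lib.MP_cfe824_nt
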